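import Pool.Agent.H27.AH.Defs
import Pool.Agent.H27.Lin.Count
import Pool.Agent.H27.K3.Defs

/-!
# Words in the eigenclasses of varieties of K3 type
-/

set_option autoImplicit false
set_option linter.unusedSectionVars false

universe u w

namespace Pool.Agent.H27.AH

open Pool.Agent.Q56.FD hiding Qb
open Pool.Agent.H27.K3 hiding Qb
open Pool.Agent.H27.Lin IntermediateField

/-! ### Minimal words -/

section Minimal

variable {Λ S : Type*} (V : Λ → S → ℤ)

/-- a word without letters of weight zero and pairs of letters of opposite weights -/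
lemma exists_minimal (m : S → ℤ) (h : ∃ b : List Λ, (b.map V).sum = m) :
    ∃ b : List Λ, (b.map V).sum = m ∧ (∀ l ∈ b, V l ≠ 0) ∧
      ∀ l ∈ b, ∀ l' ∈ b, V l + V l' ≠ 0 := by
  classical
  have h1 : ∃ n, ∃ b : List Λ, (b.map V).sum = m ∧ b.length = n := by
    obtain ⟨b, hb⟩ := h
    exact ⟨_, b, hb, rfl⟩
  obtain ⟨b, hb, hn⟩ := Nat.find_spec h1
  have hmin : ∀ b' : List Λ, (b'.map V).sum = m → b.length ≤ b'.length := by
    intro b' hb'
    rw [hn]
    exact Nat.find_min' h1 ⟨b', hb', rfl⟩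
  have h2 : ∀ l ∈ b, V l ≠ 0 := by
    intro l hl h0
    have h3 := (List.perm_cons_erase hl).map V
    have h4 := h3.sum_eq
    rw [List.map_cons, List.sum_cons, h0, zero_add, hb] at h4
    have h5 := hmin _ h4.symm
    have h6 := (List.perm_cons_erase hl).length_eq
    rw [List.length_cons] at h6
    omega
  refine ⟨b, hb, h2, fun l hl l' hl' h0 => ?_⟩
  by_cases hll : l' = l
  · subst hll
    refine h2 l' hl ?_
    funext s
    have h3 := congrFun h0 s
    rw [Pi.add_apply, Pi.zero_apply] at h3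
    rw [Pi.zero_apply]
    omega
  · have hl2 : l' ∈ b.erase l := (List.mem_erase_of_ne hll).2 hl'
    have h3 : b.Perm (l :: l' :: (b.erase l).erase l') :=
      (List.perm_cons_erase hl).trans ((List.perm_cons_erase hl2).cons l)
    have h4 := (h3.map V).sum_eq
    rw [List.map_cons, List.sum_cons, List.map_cons, List.sum_cons, ← add_assoc, h0, zero_add,
      hb] at h4
    have h5 := hmin _ h4.symm
    have h6 := h3.length_eq
    rw [List.length_cons, List.length_cons] at h6
    omega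

end Minimal

/-! ### Complex conjugation -/

section Conj

variable {ε : Qb →+* ℂ} {κ : Qb ≃ₐ[ℚ] Qb} (hκ : ∀ z, ε (κ z) = (starRingEnd ℂ) (ε z))

include hκ in
lemma conj_conj (z : Qb) : κ (κ z) = z := by
  apply ε.injective
  rw [hκ, hκ, Complex.conj_conj]

include hκ in
/-- complex conjugation commutes with the automorphisms on the conjugates of a CM number -/
lemma conj_comm {γ z : Qb} (hγ : HasConjugate γ) (hz : IsConjRoot ℚ γ z) (τ : Qb ≃ₐ[ℚ] Qb) :
    κ (τ z) = τ (κ z) := by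
  obtain ⟨γ', hγ'⟩ := hγ
  obtain ⟨σ, rfl⟩ := isConjRoot_iff_exists_algEquiv.1 hz.symm
  have h1 : ∀ ρ : Qb ≃ₐ[ℚ] Qb, κ (ρ γ) = ρ γ' := by
    intro ρ
    apply ε.injective
    rw [hκ]
    exact (hγ' (ε.comp (ρ : Qb →+* Qb))).symm
  rw [h1 σ]
  exact h1 (σ.trans τ)

lemma mem_closure_of_mem_adjoin {S : Set Qb} {x : Qb} (h : x ∈ IntermediateField.adjoin ℚ S) :
    x ∈ Subfield.closure S := by
  have h1 : x ∈ (IntermediateField.adjoin ℚ S).toSubfield := h
  rw [IntermediateField.adjoin_toSubfield] at h1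
  refine (Subfield.closure_le.2 ?_) h1
  rintro y (⟨q, rfl⟩ | hy)
  · rw [eq_ratCast]
    exact SubfieldClass.ratCast_mem _ q
  · exact Subfield.subset_closure hy

include hκ in
/-- automorphisms which act as complex conjugation on the conjugates of one number -/
theorem exists_sign {I : Type*} {γ : I → Qb} (hγ : ∀ i, HasConjugate (γ i)) (h : MeetInReal γ)
    (i : I) : ∃ σ : Qb ≃ₐ[ℚ] Qb, (∀ z, IsConjRoot ℚ (γ i) z → σ z = κ z) ∧
      ∀ j, γ j ≠ γ i → ∀ z, IsConjRoot ℚ (γ j) z → σ z = z := by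
  let T : Set Qb := {z | IsConjRoot ℚ (γ i) z}
  let L : IntermediateField ℚ Qb := IntermediateField.adjoin ℚ T
  let M : IntermediateField ℚ Qb :=
    IntermediateField.adjoin ℚ {z | ∃ j, γ j ≠ γ i ∧ IsConjRoot ℚ (γ j) z}
  have hT : T = (minpoly ℚ (γ i)).rootSet Qb := by
    ext z
    exact isConjRoot_iff_mem_minpoly_rootSet (Algebra.IsIntegral.isIntegral (γ i))
  have hsp : (minpoly ℚ (γ i)).IsSplittingField ℚ L := by
    change (minpoly ℚ (γ i)).IsSplittingField ℚ (IntermediateField.adjoin ℚ T)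
    rw [hT]
    exact IntermediateField.adjoin_rootSet_isSplittingField (IsAlgClosed.splits _)
  have hfd : FiniteDimensional ℚ L := Polynomial.IsSplittingField.finiteDimensional L
    (minpoly ℚ (γ i))
  have hnorm : Normal ℚ L := Normal.of_isSplittingField (minpoly ℚ (γ i))
  have hgal : IsGalois ℚ L := ⟨⟩
  let res := AlgEquiv.restrictNormalHom (F := ℚ) (K₁ := Qb) L
  let H : Subgroup (L ≃ₐ[ℚ] L) := M.fixingSubgroup.map res
  have hcH : res κ ∈ H := by
    rw [← IntermediateField.fixingSubgroup_fixedField H]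
    rw [IntermediateField.mem_fixingSubgroup_iff]
    intro x hx
    rw [IntermediateField.mem_fixedField_iff] at hx
    have hxM : (x : Qb) ∈ M := by
      rw [← InfiniteGalois.fixedField_fixingSubgroup M, IntermediateField.mem_fixedField_iff]
      intro σ hσ
      have h1 := hx (res σ) ⟨σ, hσ, rfl⟩
      have h2 := AlgEquiv.restrictNormal_commutes σ L x
      change ((res σ x : L) : Qb) = σ x at h2
      rw [← h2, h1]
    have hreal := h i x (mem_closure_of_mem_adjoin x.2) (mem_closure_of_mem_adjoin hxM) ε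
    apply Subtype.ext
    have h2 := AlgEquiv.restrictNormal_commutes κ L x
    change ((res κ x : L) : Qb) = κ x at h2
    rw [h2]
    apply ε.injective
    rw [hκ]
    exact hreal.symm
  obtain ⟨σ, hσ, hσc⟩ := hcH
  refine ⟨σ, fun z hz => ?_, fun s hs z hz => ?_⟩
  · have hzL : z ∈ L := IntermediateField.subset_adjoin ℚ T hz
    have h1 := AlgEquiv.restrictNormal_commutes σ L ⟨z, hzL⟩
    have h2 := AlgEquiv.restrictNormal_commutes κ L ⟨z, hzL⟩
    change ((res σ ⟨z, hzL⟩ : L) : Qb) = σ z at h1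
    change ((res κ ⟨z, hzL⟩ : L) : Qb) = κ z at h2
    rw [hσc] at h1
    rw [← h1, h2]
  · exact (IntermediateField.mem_fixingSubgroup_iff _ σ).1 hσ z
      (IntermediateField.subset_adjoin ℚ _ ⟨s, hs, hz⟩)

end Conj

/-! ### Reduced words -/

section Words

variable {Λ : Type*} {κ : Qb ≃ₐ[ℚ] Qb} {g μ : Λ → Qb} {c : Λ → ℤ}

/-- the weight of a letter -/
noncomputable def W (κ : Qb ≃ₐ[ℚ] Qb) (g μ : Λ → Qb) (c : Λ → ℤ) (l : Λ) (τ : Qb ≃ₐ[ℚ] Qb) : ℤ :=
  open Classical in
  c l * ((if τ (μ l) = g l then 1 else 0) - (if τ (μ l) = κ (g l) then 1 else 0))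

/-- the properties of the numbers -/
structure Good (κ : Qb ≃ₐ[ℚ] Qb) (g : Λ → Qb) : Prop where
  invol : ∀ z, κ (κ z) = z
  comm : ∀ l z, IsConjRoot ℚ (g l) z → ∀ τ : Qb ≃ₐ[ℚ] Qb, κ (τ z) = τ (κ z)
  flip : ∀ l, ∃ σ : Qb ≃ₐ[ℚ] Qb, (∀ z, IsConjRoot ℚ (g l) z → σ z = κ z) ∧
    ∀ l', g l' ≠ g l → ∀ z, IsConjRoot ℚ (g l') z → σ z = z

/-- the word has no superfluous letters -/
structure Reduced (κ : Qb ≃ₐ[ℚ] Qb) (g μ : Λ → Qb) (c : Λ → ℤ) (R : List Λ) : Prop where
  pos : ∀ l ∈ R, 0 < c l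
  ne : ∀ l ∈ R, g l ≠ κ (g l)
  conj : ∀ l ∈ R, IsConjRoot ℚ (g l) (μ l)
  eq : ∀ l ∈ R, ∀ l' ∈ R, g l = g l' → c l = c l'
  dual : ∀ l ∈ R, ∀ l' ∈ R, g l = g l' → μ l' ≠ κ (μ l)

lemma Good.flips (h : Good κ g) (S : Finset Qb) : ∃ σ : Qb ≃ₐ[ℚ] Qb, ∀ l z, IsConjRoot ℚ (g l) z →
    (g l ∈ S → σ z = κ z) ∧ (g l ∉ S → σ z = z) := by
  classical
  induction S using Finset.induction_on with
  | empty => exact ⟨AlgEquiv.refl, fun l z _ => ⟨fun h => absurd h (Finset.notMem_empty _),
      fun _ => rfl⟩⟩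
  | insert a S ha ih =>
    obtain ⟨σ, hσ⟩ := ih
    by_cases hex : ∃ l, g l = a
    · obtain ⟨l₀, rfl⟩ := hex
      obtain ⟨ρ, hρ, hρ'⟩ := h.flip l₀
      refine ⟨σ.trans ρ, fun l z hz => ⟨fun hl => ?_, fun hl => ?_⟩⟩
      · change ρ (σ z) = _
        by_cases hl0 : g l = g l₀
        · rw [(hσ l z hz).2 (hl0 ▸ ha)]
          exact hρ z (hl0 ▸ hz)
        · rw [(hσ l z hz).1 ((Finset.mem_insert.1 hl).resolve_left hl0)]
          exact hρ' l hl0 _ (hz.trans (isConjRoot_of_algEquiv z κ))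
      · change ρ (σ z) = _
        rw [Finset.mem_insert, not_or] at hl
        rw [(hσ l z hz).2 hl.2]
        exact hρ' l hl.1 z hz
    · refine ⟨σ, fun l z hz => ⟨fun hl => (hσ l z hz).1 ((Finset.mem_insert.1 hl).resolve_left
        fun h1 => hex ⟨l, h1⟩), fun hl => (hσ l z hz).2 fun h1 => hl (Finset.mem_insert_of_mem h1)⟩⟩

lemma W_eq_pos {l : Λ} (hc : 0 < c l) {τ : Qb ≃ₐ[ℚ] Qb} (h : 0 < W κ g μ c l τ) :
    τ (μ l) = g l := by
  by_contra h1
  rw [W, if_neg h1] at h
  split_ifs at h <;> nlinarith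

lemma W_eq_neg {l : Λ} (hc : 0 < c l) {τ : Qb ≃ₐ[ℚ] Qb} (h : W κ g μ c l τ < 0) :
    τ (μ l) = κ (g l) := by
  by_contra h1
  rw [W, if_neg h1] at h
  split_ifs at h <;> nlinarith

lemma abs_W {l : Λ} (hc : 0 < c l) (hne : g l ≠ κ (g l)) (τ : Qb ≃ₐ[ℚ] Qb) :
    |W κ g μ c l τ| = open Classical in
      c l * ((if τ (μ l) = g l then 1 else 0) + (if τ (μ l) = κ (g l) then 1 else 0)) := by
  classical
  rw [W]
  by_cases h1 : τ (μ l) = g l
  · have h2 : τ (μ l) ≠ κ (g l) := by rw [h1]; exact hne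
    simp only [if_pos h1, if_neg h2]
    rw [sub_zero, add_zero, mul_one, abs_of_pos hc]
  · by_cases h2 : τ (μ l) = κ (g l)
    · simp only [if_neg h1, if_pos h2]
      rw [zero_sub, zero_add, mul_neg, abs_neg, mul_one, abs_of_pos hc]
    · simp only [if_neg h1, if_neg h2]
      simp

lemma W_flip (h : Good κ g) {l : Λ} (hl : IsConjRoot ℚ (g l) (μ l)) {σ τ : Qb ≃ₐ[ℚ] Qb}
    (hσ : σ (μ l) = κ (μ l)) : W κ g μ c l (σ.trans τ) = - W κ g μ c l τ := by
  classical
  have h1 : (σ.trans τ) (μ l) = κ (τ (μ l)) := by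
    change τ (σ (μ l)) = _
    rw [hσ, h.comm l _ hl τ]
  have h2 : κ (τ (μ l)) = g l ↔ τ (μ l) = κ (g l) := by
    constructor
    · intro h3
      rw [← h3, h.invol]
    · intro h3
      rw [h3, h.invol]
  have h3 : κ (τ (μ l)) = κ (g l) ↔ τ (μ l) = g l := κ.injective.eq_iff
  rw [W, W, h1]
  simp only [h2, h3]
  ring

/-- **The sum of the absolute values of the weights.** -/
theorem sum_abs_le (h : Good κ g) {R : List Λ} (hR : Reduced κ g μ c R) {r : ℤ}
    (hb : ∀ τ, |(R.map fun l => W κ g μ c l τ).sum| ≤ r) (τ : Qb ≃ₐ[ℚ] Qb) :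
    (R.map fun l => |W κ g μ c l τ|).sum ≤ r := by
  classical
  let S : Finset Qb := ((R.filter fun l => W κ g μ c l τ < 0).map g).toFinset
  have hS : ∀ a, a ∈ S ↔ ∃ l ∈ R, W κ g μ c l τ < 0 ∧ g l = a := by
    intro a
    rw [List.mem_toFinset, List.mem_map]
    constructor
    · rintro ⟨l, hl, rfl⟩
      rw [List.mem_filter, decide_eq_true_eq] at hl
      exact ⟨l, hl.1, hl.2, rfl⟩
    · rintro ⟨l, hl, h2, rfl⟩
      exact ⟨l, List.mem_filter.2 ⟨hl, decide_eq_true h2⟩, rfl⟩
  obtain ⟨σ, hσ⟩ := h.flips S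
  have hterm : ∀ l ∈ R, W κ g μ c l (σ.trans τ) = |W κ g μ c l τ| := by
    intro l hl
    by_cases hj : g l ∈ S
    · rw [W_flip h (hR.conj l hl) ((hσ l _ (hR.conj l hl)).1 hj), abs_of_nonpos]
      by_contra h4
      obtain ⟨l', hl', h5, h6⟩ := (hS _).1 hj
      have h7 := W_eq_pos (hR.pos l hl) (not_le.1 h4)
      have h8 := W_eq_neg (hR.pos l' hl') h5
      apply hR.dual l hl l' hl' h6.symm
      apply τ.injective
      rw [h8, ← h.comm l _ (hR.conj l hl) τ, h7, h6]
    · have h1 : W κ g μ c l (σ.trans τ) = W κ g μ c l τ := by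
        have h2 : (σ.trans τ) (μ l) = τ (μ l) := by
          change τ (σ (μ l)) = _
          rw [(hσ l _ (hR.conj l hl)).2 hj]
        rw [W, W, h2]
      rw [h1, abs_of_nonneg]
      by_contra h4
      exact hj ((hS _).2 ⟨l, hl, not_le.1 h4, rfl⟩)
  have h2 := hb (σ.trans τ)
  rw [List.map_congr_left hterm] at h2
  exact (le_abs_self _).trans h2

lemma count_emb (E : IntermediateField ℚ Qb) [FiniteDimensional ℚ E] {a z : Qb}
    (hE : ∀ z, IsConjRoot ℚ a z → z ∈ E) (hz : IsConjRoot ℚ a z) :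
    (minpoly ℚ a).natDegree * ∑ e : E →ₐ[ℚ] Qb, (open Classical in
      if lft E e z = a then (1 : ℚ) else 0) = Fintype.card (E →ₐ[ℚ] Qb) := by
  classical
  have h1 := average E hE (fun ζ => if ζ = z then (1 : ℚ) else 0)
  have h2 : ∑ ζ ∈ cj a, (if ζ = z then (1 : ℚ) else 0) = 1 := by
    rw [Finset.sum_ite_eq', if_pos (mem_cj.2 hz)]
  rw [h2, mul_one] at h1
  rw [← h1]
  congr 1
  refine Finset.sum_congr rfl fun e _ => ?_
  have h3 : (lft E e).symm a = z ↔ lft E e z = a := by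
    rw [AlgEquiv.symm_apply_eq, eq_comm]
  simp only [h3]

/-- **The mean value.** -/
theorem mean_le (h : Good κ g) {R : List Λ} (hR : Reduced κ g μ c R) {r : ℤ}
    (hb : ∀ τ, |(R.map fun l => W κ g μ c l τ).sum| ≤ r) :
    (R.map fun l => 2 * (c l : ℚ) / (minpoly ℚ (g l)).natDegree).sum ≤ r := by
  classical
  obtain ⟨E, hfd, hE⟩ := exists_field (R.toFinset.biUnion fun l => cj (g l))
  have hE' : ∀ l ∈ R, ∀ z, IsConjRoot ℚ (g l) z → z ∈ E := fun l hl z hz =>
    hE z (Finset.mem_biUnion.2 ⟨l, List.mem_toFinset.2 hl, mem_cj.2 hz⟩)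
  have hcard : (0 : ℚ) < Fintype.card (E →ₐ[ℚ] Qb) := by
    exact_mod_cast Fintype.card_pos_iff.2 ⟨E.val⟩
  have h1 : ∀ l ∈ R, ∑ e : E →ₐ[ℚ] Qb, ((|W κ g μ c l (lft E e)| : ℤ) : ℚ) =
      Fintype.card (E →ₐ[ℚ] Qb) * (2 * (c l : ℚ) / (minpoly ℚ (g l)).natDegree) := by
    intro l hl
    have hd : (0 : ℚ) < (minpoly ℚ (g l)).natDegree := by exact_mod_cast deg_pos (g l)
    have h2 := count_emb E (hE' l hl) (hR.conj l hl)
    have hk : IsConjRoot ℚ (g l) (κ (g l)) := isConjRoot_of_algEquiv (g l) κ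
    have h3 := count_emb E (a := κ (g l)) (z := μ l)
      (fun z hz => hE' l hl z (hk.trans hz)) (hk.symm.trans (hR.conj l hl))
    have hk' : minpoly ℚ (κ (g l)) = minpoly ℚ (g l) := hk.symm
    rw [hk'] at h3
    have h4 : ∀ e : E →ₐ[ℚ] Qb, ((|W κ g μ c l (lft E e)| : ℤ) : ℚ) =
        c l * ((if lft E e (μ l) = g l then 1 else 0) +
          (if lft E e (μ l) = κ (g l) then 1 else 0)) := by
      intro e
      rw [abs_W (hR.pos l hl) (hR.ne l hl)]
      push_cast
      rfl
    rw [Finset.sum_congr rfl fun e _ => h4 e, ← Finset.mul_sum, Finset.sum_add_distrib]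
    have h5 : ∀ a b n d : ℚ, 0 < d → d * a = n → d * b = n → ∀ c : ℚ,
        c * (a + b) = n * (2 * c / d) := by
      intro a b n d hd ha hb c
      rw [eq_comm, mul_div_assoc', div_eq_iff hd.ne']
      linear_combination (-c) * ha - c * hb
    exact h5 _ _ _ _ hd h2 h3 _
  have h2 : ∑ e : E →ₐ[ℚ] Qb, ((R.map fun l => ((|W κ g μ c l (lft E e)| : ℤ) : ℚ)).sum) =
      Fintype.card (E →ₐ[ℚ] Qb) *
        (R.map fun l => 2 * (c l : ℚ) / (minpoly ℚ (g l)).natDegree).sum := by
    clear hb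
    have : ∀ R' : List Λ, (∀ l ∈ R', l ∈ R) →
        ∑ e : E →ₐ[ℚ] Qb, ((R'.map fun l => ((|W κ g μ c l (lft E e)| : ℤ) : ℚ)).sum) =
        Fintype.card (E →ₐ[ℚ] Qb) *
          (R'.map fun l => 2 * (c l : ℚ) / (minpoly ℚ (g l)).natDegree).sum := by
      intro R' hR'
      induction R' with
      | nil => simp
      | cons l R' ih =>
        simp only [List.map_cons, List.sum_cons]
        rw [Finset.sum_add_distrib, ih fun l hl => hR' l (List.mem_cons_of_mem _ hl),
          h1 l (hR' l List.mem_cons_self), mul_add]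
    exact this R fun l hl => hl
  refine le_of_mul_le_mul_left ?_ hcard
  rw [← h2]
  have h3 : ∀ e : E →ₐ[ℚ] Qb, (R.map fun l => ((|W κ g μ c l (lft E e)| : ℤ) : ℚ)).sum ≤ r := by
    intro e
    have h4 := sum_abs_le h hR hb (lft E e)
    have h5 : (((R.map fun l => |W κ g μ c l (lft E e)|).sum : ℤ) : ℚ) ≤ r := by
      exact_mod_cast h4
    rwa [Int.cast_list_sum, List.map_map] at h5
  refine (Finset.sum_le_sum fun e _ => h3 e).trans ?_
  rw [Finset.sum_const, Finset.card_univ, nsmul_eq_mul]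

/-- **The multiplicities.** -/
theorem count_le (h : Good κ g) {R : List Λ} (hR : Reduced κ g μ c R) {r : ℕ}
    (hb : ∀ τ, |(R.map fun l => W κ g μ c l τ).sum| ≤ r) (a : Qb) (n : ℕ)
    (hn : ∀ l ∈ R, g l = a → c l = n) : open Classical in
    2 * R.countP (fun l => g l = a) ≤ (minpoly ℚ a).natDegree * (r / n) := by
  classical
  by_cases hex : ∃ l₀ ∈ R, g l₀ = a
  swap
  · rw [List.countP_eq_zero.2 fun l hl h1 => hex ⟨l, hl, of_decide_eq_true h1⟩, mul_zero]
    exact Nat.zero_le _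
  obtain ⟨l₀, hl₀, hg₀⟩ := hex
  have hn0 : 0 < n := by
    have h1 := hR.pos l₀ hl₀
    rw [hn l₀ hl₀ hg₀] at h1
    exact_mod_cast h1
  have hconj : ∀ z, IsConjRoot ℚ a z → IsConjRoot ℚ a (κ z) := fun z hz =>
    hz.trans (isConjRoot_of_algEquiv z κ)
  let N : Qb → ℕ := fun z => R.countP fun l => g l = a ∧ μ l = z
  have h1 : ∀ z ∈ cj a, N z ≤ r / n := by
    intro z hz
    obtain ⟨τ, hτ⟩ := isConjRoot_iff_exists_algEquiv.1 (mem_cj.1 hz)
    rw [Nat.le_div_iff_mul_le hn0]
    have h2 := sum_abs_le h hR hb τ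
    have h3 : ∀ R' : List Λ, (∀ l ∈ R', l ∈ R) →
        ((R'.countP (fun l => g l = a ∧ μ l = z) * n : ℕ) : ℤ) ≤
          (R'.map fun l => |W κ g μ c l τ|).sum := by
      intro R' hR'
      induction R' with
      | nil => simp
      | cons l R' ih =>
        rw [List.countP_cons, List.map_cons, List.sum_cons]
        have h4 := ih fun l hl => hR' l (List.mem_cons_of_mem _ hl)
        by_cases hl : g l = a ∧ μ l = z
        · have h5 : |W κ g μ c l τ| = n := by
            rw [abs_W (hR.pos l (hR' l List.mem_cons_self)) (hR.ne l (hR' l List.mem_cons_self))]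
            have h6 : τ (μ l) = g l := by rw [hl.2, hτ, hl.1]
            have h7 : τ (μ l) ≠ κ (g l) := by
              rw [h6]
              exact hR.ne l (hR' l List.mem_cons_self)
            simp only [if_pos h6, if_neg h7]
            rw [add_zero, mul_one]
            exact hn l (hR' l List.mem_cons_self) hl.1
          rw [if_pos (decide_eq_true hl), h5]
          push_cast
          push_cast at h4
          linarith
        · rw [if_neg (fun h => hl (of_decide_eq_true h)), add_zero]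
          have h5 := abs_nonneg (W κ g μ c l τ)
          linarith
    have h4 := (h3 R fun l hl => hl).trans h2
    exact_mod_cast h4
  have h2 : R.countP (fun l => g l = a) = ∑ z ∈ cj a, N z := by
    have h3 : ∀ R' : List Λ, (∀ l ∈ R', l ∈ R) → R'.countP (fun l => g l = a) =
        ∑ z ∈ cj a, R'.countP (fun l => g l = a ∧ μ l = z) := by
      intro R' hR'
      induction R' with
      | nil => simp
      | cons l R' ih =>
        simp only [List.countP_cons]
        rw [Finset.sum_add_distrib, ← ih fun l hl => hR' l (List.mem_cons_of_mem _ hl)]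
        congr 1
        by_cases hl : g l = a
        · rw [Finset.sum_eq_single (μ l)]
          · simp [hl]
          · intro z _ hz
            rw [if_neg]
            intro h5
            exact hz (of_decide_eq_true h5).2.symm
          · intro h5
            refine absurd (mem_cj.2 ?_) h5
            rw [← hl]
            exact hR.conj l (hR' l List.mem_cons_self)
        · simp [hl]
    exact h3 R fun l hl => hl
  let A : Finset Qb := (cj a).filter fun z => N z ≠ 0
  have h3 : R.countP (fun l => g l = a) ≤ A.card * (r / n) := by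
    rw [h2, ← Finset.sum_filter_ne_zero, ← smul_eq_mul, ← Finset.sum_const]
    exact Finset.sum_le_sum fun z hz => h1 z (Finset.mem_filter.1 hz).1
  have h4 : 2 * A.card ≤ (minpoly ℚ a).natDegree := by
    rw [← card_cj, two_mul]
    have h5 : (A.image κ).card = A.card := Finset.card_image_of_injective _ κ.injective
    conv_lhs => rw [← h5]
    rw [h5, ← h5]
    have hdisj : Disjoint (A.image κ) A := by
      rw [Finset.disjoint_left]
      intro z hz hz'
      obtain ⟨y, hy, rfl⟩ := Finset.mem_image.1 hz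
      obtain ⟨l, hl, h6⟩ := List.countP_pos_iff.1 (Nat.pos_of_ne_zero (Finset.mem_filter.1 hy).2)
      obtain ⟨l', hl', h7⟩ := List.countP_pos_iff.1
        (Nat.pos_of_ne_zero (Finset.mem_filter.1 hz').2)
      have h8 := of_decide_eq_true h6
      have h9 := of_decide_eq_true h7
      refine hR.dual l hl l' hl' (h8.1.trans h9.1.symm) ?_
      rw [h9.2, h8.2]
    have h6 : (A.image κ).card + A.card ≤ (cj a).card := by
      rw [← Finset.card_union_of_disjoint hdisj]
      refine Finset.card_le_card (Finset.union_subset ?_ (Finset.filter_subset _ _))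
      intro z hz
      obtain ⟨y, hy, rfl⟩ := Finset.mem_image.1 hz
      exact mem_cj.2 (hconj y (mem_cj.1 (Finset.mem_filter.1 hy).1))
    rw [h5] at h6 ⊢
    exact h6
  calc 2 * R.countP (fun l => g l = a) ≤ 2 * (A.card * (r / n)) := Nat.mul_le_mul_left 2 h3
    _ = 2 * A.card * (r / n) := by ring
    _ ≤ (minpoly ℚ a).natDegree * (r / n) := Nat.mul_le_mul_right _ h4

end Words

end Pool.Agent.H27.AH
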