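import Pool.Graph.R_seed8.Y121.AHS.Defs

/-!
# Absolutely Hodge classes on products with varieties of K3 type: definitions
-/

set_option autoImplicit false

open CategoryTheory AlgebraicGeometry

universe u w

namespace Pool.Agent.H27.AH

open Pool.Agent.H914 Pool.Agent.H914.VarClass Pool.Agent.H914.VarClass.Obj
  Pool.Agent.H914.WeilCohomology Pool.Agent.Y121.AHS

section Numbers

/-- The algebraic numbers. -/
abbrev Qb : Type := AlgebraicClosure ℚ

/-- The image of `y` under each complex embedding is the complex conjugate of the image of `x`. So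
`AreConj x x` means that `x` is totally real. -/
def AreConj (x y : Qb) : Prop := ∀ φ : Qb →+* ℂ, φ y = (starRingEnd ℂ) (φ x)

/-- There is a `γ'` whose images under all complex embeddings are the complex conjugates of the
images of `γ`; that is, the field `ℚ(γ)` is a CM field or totally real. -/
def HasConjugate (γ : Qb) : Prop := ∃ γ' : Qb, AreConj γ γ'

variable {I : Type w}

/-- For every `i`, the field generated by the conjugates of `γ i` and the field generated by the
conjugates of all numbers `γ j` different from `γ i` have only totally real numbers in common. -/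
def MeetInReal (γ : I → Qb) : Prop :=
  ∀ i, ∀ x ∈ Subfield.closure {z | IsConjRoot ℚ (γ i) z},
    x ∈ Subfield.closure {z | ∃ j, γ j ≠ γ i ∧ IsConjRoot ℚ (γ j) z} → AreConj x x

/-- The list `L` of indices is short: the sum of the numbers `2 c i / deg (γ i)` is at most `r`, and
for every `i` the number of the members `j` of `L` such that `γ j = γ i` is at most
`deg (γ i) / 2 * ⌊r / c i⌋`. -/
def IsShort (γ : I → Qb) (c : I → ℕ) (r : ℕ) (L : List I) : Prop :=
  (L.map fun i => 2 * (c i : ℚ) / (minpoly ℚ (γ i)).natDegree).sum ≤ r ∧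
    open Classical in ∀ i, 2 * L.countP (fun j => γ j = γ i) ≤
      (minpoly ℚ (γ i)).natDegree * (r / c i)

end Numbers

section Varieties

variable {k : Type u} [Field k] {𝒱 : VarClass k} {ops : CycleOps 𝒱} {I : Type w}

/-- The spaces `H^(p,q)(X)` with `p < 0` or `q < 0` vanish, for all `X`. -/
def NonnegTypes (T : HodgeTheory ops) : Prop :=
  ∀ (X : 𝒱.Obj) (p q : ℤ), p < 0 ∨ q < 0 → T.pq X p q = ⊥

/-- The rational endomorphisms of the cohomology `H(X)`, the sum of the `H^i(X)`. -/
def EndH (T : HodgeTheory ops) (X : 𝒱.Obj) : Type := Module.End T.W.K (T.W.H X)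

/-- The characteristic polynomial of the endomorphism is squarefree. -/
def HasSquarefreeCharpoly {T : HodgeTheory ops} {X : 𝒱.Obj} (f : EndH T X) : Prop :=
  Squarefree (LinearMap.charpoly (R := T.W.K) (M := T.W.H X) f)

/-- The endomorphism applied to a class with complex coefficients. -/
noncomputable def endC {T : HodgeTheory ops} {X : 𝒱.Obj} (f : EndH T X) (x : HL T.W ℂ X) :
    HL T.W ℂ X :=
  extMap T.W.K ℂ (A := T.W.H X) (B := T.W.H X) f x

/-- `X` is of CM type and of K3 type with the number `g` and the width `c`: the cohomology `H(X)`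
has a rational endomorphism `f` with a squarefree characteristic polynomial which maps classes of
type `(p, q)` to classes of type `(p, q)` (so `X` is of CM type), and the classes of type `(p, q)`
with `p ≠ q` are eigenvectors of `f`, for the eigenvalue `g` and `p - q = c` or for the complex
conjugate eigenvalue and `q - p = c`, unless they are `0`. So there is at most one class of type
`(p, q)` with `p > q`, up to multiples. -/
def IsK3Type (T : HodgeTheory ops) (g : ℂ) (c : ℕ) (X : 𝒱.Obj) : Prop :=
  ∃ f : EndH T X, HasSquarefreeCharpoly f ∧ ∀ (p q : ℤ) (x : HL T.W ℂ X), IsType T.pq p q x →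
    IsType T.pq p q (endC f x) ∧
      (p ≠ q → x ≠ 0 → (p - q = c ∧ endC f x = smL g x) ∨
        (q - p = c ∧ endC f x = smL ((starRingEnd ℂ) g) x))

/-- The level of the cohomology of `Z` is at most `r`: if there is a nonzero class of type `(p, q)`
then `|p - q| ≤ r`. -/
def HasLevelAtMost (T : HodgeTheory ops) (r : ℕ) (Z : 𝒱.Obj) : Prop :=
  ∀ (p q : ℤ) (x : HL T.W ℂ Z), IsType T.pq p q x → x ≠ 0 → |p - q| ≤ r

/-- The product `Z × X i₁ × ⋯ × X iₙ` of `Z` and members of the family `X`, where
`L = [i₁, ..., iₙ]`; this is `Z` for `n = 0`. -/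
noncomputable def times (X : I → 𝒱.Obj) (Z : 𝒱.Obj) : List I → 𝒱.Obj
  | [] => Z
  | i :: L => Z.prod (times X (X i) L)

/-- The classes `c` on `Y` with the property `P j c`, for some `j`, are classes of algebraic cycles of
codimension `j` with rational coefficients. -/
def AllAlg {T : HodgeTheory ops} {Y : 𝒱.Obj} (P : ℕ → T.W.H Y → Prop) : Prop :=
  ∀ (j : ℕ) (c : T.W.H Y), P j c → ∃ z : Y.Cycles, Y.IsCyc j z ∧ T.W.cl Y z = c

end Varieties

end Pool.Agent.H27.AH
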