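import Pool.Graph.R_pool_sql_team_seeded_b0a926ef.R936.Two.Two

/-!
# Two systems of classes on products with an arbitrary factor: few factors
-/

set_option linter.unusedVariables false
set_option linter.unusedSectionVars false

open CategoryTheory AlgebraicGeometry TensorProduct

universe u v w

namespace Pool.Agent.H27.AH

open Pool.Agent.H914 Pool.Agent.W534 VarClass Obj WeilCohomology Module
open Pool.Agent.Y121
open Pool.Agent.Y163 (HBasis)
open Pool.Agent.H281R3.HT
open Pool.Agent.R940 (CMB csH csH_smul csH_map csH_em csH_gr csH_inj HSub em_HSub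
  cs_ind cs_tmul type_bound deg_eq repr_zero em_SG mem_of_SG pq_top SG SG_ind)
open Pool.Agent.R936.Hel
open Pool.Agent.R936.Hel2 (BB CC pt wt st st_cons csH_lwf lwf_type wt_sum rel_iff st_eq pt_nonneg
  st_nonneg st_add WB exists_WB csH_tr type_of_tr clL HG st_dual algCl)
open Pool.Agent.R936.Per (Fix hodge_desc HC KC dual_letter')
open Pool.Agent.R936.Arb
open Pool.Agent.R936.Two (SG_mono')
open Pool.Agent.R936

variable {k : Type u} [Field k] {𝒱 : VarClass k} {ops : CycleOps 𝒱}

section Contr

variable {W : WeilCohomology.{u, v} ops} {Z P : 𝒱.Obj}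

/-- The contraction with a class on the second factor. -/
noncomputable def contr0 (x : W.H (Z.prod P)) (u : W.H P) : W.H Z :=
  W.push (snd P Z) (W.map (Obj.lift (snd P Z) (fst P Z)) x * W.map (fst P Z) u)

lemma contr0_mem (S : Cl W) {x : W.H (Z.prod P)} {u : W.H P} (hx : x ∈ S.C _)
    (hu : u ∈ S.C _) : contr0 x u ∈ S.C _ :=
  S.push _ (S.mul (S.map _ hx) (S.map _ hu))

lemma contr0_add (x x' : W.H (Z.prod P)) (u : W.H P) :
    contr0 (x + x') u = contr0 x u + contr0 x' u := by
  rw [contr0, map_add, add_mul, map_add]; rfl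

lemma contr0_sum {κ : Type*} (s : Finset κ) (x : κ → W.H (Z.prod P)) (u : W.H P) :
    contr0 (∑ i ∈ s, x i) u = ∑ i ∈ s, contr0 (x i) u := by
  rw [contr0, map_sum, Finset.sum_mul, map_sum]; rfl

lemma contr0_zw {z : W.H Z} {p u : W.H P} {i j : ℕ} (hp : p ∈ W.gr P i)
    (hu : u ∈ W.gr P j) : contr0 (zw z p) u = W.tr P (p * u) • z := by
  refine gr_induction (W.isInternal Z)
    (p := fun z => contr0 (zw z p) u = W.tr P (p * u) • z) ?_ ?_ z
  · intro d z hz
    have e1 : Obj.lift (snd P Z) (fst P Z) ≫ fst Z P = snd P Z := Obj.lift_fst _ _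
    have e2 : Obj.lift (snd P Z) (fst P Z) ≫ snd Z P = fst P Z := Obj.lift_snd _ _
    have h1 : W.map (Obj.lift (snd P Z) (fst P Z)) (zw z p) * W.map (fst P Z) u =
        W.map (snd P Z) z * W.map (fst P Z) (p * u) := by
      rw [zw, map_mul, ← W.map_comp, ← W.map_comp, e1, e2, map_mul, mul_assoc]
    have hpu : p * u ∈ W.gr P (i + j) := W.mul_mem hp hu
    rw [contr0, h1, W.comm (W.map_mem _ hz) (W.map_mem _ hpu), map_smul, W.push_snd]
    by_cases h0 : i + j = 2 * P.dim
    · rw [h0, show d * (2 * P.dim) = 2 * (d * P.dim) by ring, pow_mul]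
      simp
    · rw [W.tr_eq_zero hpu h0, zero_smul, smul_zero]
  · intro a b ha hb
    rw [zw_add, contr0_add, ha, hb, smul_add]

end Contr

variable {T : AH.HodgeTheory ops} {Y Z P : 𝒱.Obj} {L : Type} [Field L] [Algebra T.W.K L]
  {I : Type w} {X : I → 𝒱.Obj} {ι : I → Type}

/-- The product of `Z` with the members of a list. -/
noncomputable def timesH (X : I → 𝒱.Obj) (Z : 𝒱.Obj) : List I → 𝒱.Obj
  | [] => Z
  | i :: L => Z.prod (prodOf X i L)

section

variable (hpos : ∀ (Y : 𝒱.Obj) (p q : ℤ), p < 0 ∨ q < 0 → T.pq Y p q = ⊥)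

variable (M : ∀ i, CMB T (X i) L (ι i))

include hpos in
/-- **Two systems of classes on products with an arbitrary factor: few factors.** -/
theorem few_arb [∀ i, Finite (ι i)] (σ₀ : L →ₐ[T.W.K] ℂ) {G A : Cl T.W}
    (hAG : ∀ Y, A.C Y ≤ G.C Y)
    (hAlg : ∀ R : Multiset (Σ i, ι i), toZ R ∈ Hel.Rel (wt M) 0 → AlgS (clL A L) (BB M) R)
    {r : ℤ} (hr : ∀ (p q : ℤ) (x : HC T Z), x ∈ T.pq Z p q → x ≠ 0 → |p - q| ≤ r)
    {𝒮 : Set (List I)}
    (hb : ∀ R : Multiset (Σ i, ι i), (∀ σ, |lam (wt M) R σ| ≤ r) →
      ∃ b : List (Σ i, ι i), b.map Sigma.fst ∈ 𝒮 ∧ lamL (wt M) b = lam (wt M) R)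
    (hZ : ∀ Lst ∈ 𝒮, G.C (timesH X Z Lst) ≤ A.C (timesH X Z Lst)) (i : I)
    (Lst : List I) {J : ℕ} {c : T.W.H (Z.prod (Hel.prodOf X i Lst))} (hc : AH.IsHodge T _ J c)
    (hcG : c ∈ G.C (Z.prod (Hel.prodOf X i Lst))) : c ∈ A.C (Z.prod (Hel.prodOf X i Lst)) := by
  classical
  have hx : AH.em T.W L c ∈ (clL G L).C (Z.prod (Hel.prodOf X i Lst)) := em_SG hcG
  obtain ⟨κ, hκ, N, hN⟩ := exists_WB (ops := ops) (X := X) (ι := ι) Lst i
  cases nonempty_fintype κ
  obtain ⟨b, hb'⟩ := hN _ (BB M)
  obtain ⟨z, hz⟩ := exists_dec (W := baseW T.W L) b (AH.em T.W L c)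
  have hz' : AH.em T.W L c = ∑ a, zw (z a) (lwf (BB M) (N a)) := by
    rw [hz]
    exact Finset.sum_congr rfl fun a _ => by rw [hb']
  obtain ⟨g, hg⟩ := Pool.Agent.R936.Arb.exists_dual (W := baseW T.W L) b
  refine mem_of_SG (L := L) ?_
  rw [hz']
  refine Submodule.sum_mem _ fun a _ => ?_
  by_cases hz0 : z a = 0
  · rw [hz0, zw_zero]
    exact Submodule.zero_mem _
  · show zw (z a) (lwf (BB M) (N a)) ∈ (clL A L).C _
    have htype := fun σ => comp_types hpos M hN hc hz' a σ
    obtain ⟨b1, hb1, hb2⟩ := hb (↑((N a).map Sigma.fst)) (fun σ => by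
      have h0 : csH σ Z (z a) ≠ 0 := fun h => hz0 (csH_inj σ (h.trans (map_zero _).symm))
      have h1 := hr _ _ _ (htype σ) h0
      rw [lam_eq]
      rwa [show (J : ℤ) - st M σ true (N a) - (J - st M σ false (N a)) =
        -(st M σ true (N a) - st M σ false (N a)) by ring, abs_neg] at h1)
    -- complementary words
    let Co : κ → κ → Prop := fun m a' => ∀ σ e, st M σ e (N m) + st M σ e (N a') =
      (Hel.prodOf X i Lst).dim
    have hCo : ∀ m a', (baseW T.W L).tr _ (b a' * b m) ≠ 0 → Co m a' := by
      intro m a' h σ e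
      rw [hb', hb'] at h
      rw [add_comm]
      exact st_dual M hpos h σ e
    let u : (baseW T.W L).H (Hel.prodOf X i Lst) :=
      ∑ m ∈ Finset.univ.filter (fun m => Co m a), g m a • b m
    -- the degree of `u`
    have hdeg : ∀ m, Co m a → ((N m).map fun y => dg (BB M) y.1).sum =
        2 * (Hel.prodOf X i Lst).dim - ((N a).map fun y => dg (BB M) y.1).sum := by
      intro m hm
      have h1 := hm σ₀ true
      have h2 := hm σ₀ false
      have h3 := st_add M hpos σ₀ (N m)
      have h4 := st_add M hpos σ₀ (N a)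
      have h5 : ((N m).map fun y => dg (BB M) y.1).sum =
        ((N m).map fun y => (M y.1.1).B.deg y.1.2).sum := rfl
      have h6 : ((N a).map fun y => dg (BB M) y.1).sum =
        ((N a).map fun y => (M y.1.1).B.deg y.1.2).sum := rfl
      rw [h5, h6]
      omega
    have hu : u ∈ (baseW T.W L).gr _
        (2 * (Hel.prodOf X i Lst).dim - ((N a).map fun y => dg (BB M) y.1).sum) := by
      refine Submodule.sum_mem _ fun m hm => Submodule.smul_mem _ _ ?_
      rw [← hdeg m (Finset.mem_filter.1 hm).2, hb']
      exact lwf_gr _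
    have htr : ∀ a', (baseW T.W L).tr _ (b a' * u) = if a' = a then 1 else 0 := by
      intro a'
      by_cases hsame : ∀ σ e, st M σ e (N a') = st M σ e (N a)
      · rw [← hg a a']
        show (baseW T.W L).tr _ (b a' *
          ∑ m ∈ Finset.univ.filter (fun m => Co m a), g m a • b m) = _
        rw [Finset.mul_sum, map_sum, Finset.mul_sum, map_sum, Finset.sum_filter]
        refine Finset.sum_congr rfl fun m _ => ?_
        split_ifs with h
        · rfl
        · rw [mul_smul_comm, map_smul]
          by_cases h0 : (baseW T.W L).tr _ (b a' * b m) = 0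
          · rw [h0, smul_zero]
          · exfalso
            apply h
            intro σ e
            rw [← hsame σ e]
            exact hCo m a' h0 σ e
      · have hne : a' ≠ a := by
          rintro rfl
          exact hsame fun _ _ => rfl
        rw [if_neg hne]
        show (baseW T.W L).tr _ (b a' *
          ∑ m ∈ Finset.univ.filter (fun m => Co m a), g m a • b m) = _
        rw [Finset.mul_sum, map_sum]
        refine Finset.sum_eq_zero fun m hm => ?_
        rw [mul_smul_comm, map_smul]
        by_cases h0 : (baseW T.W L).tr _ (b a' * b m) = 0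
        · rw [h0, smul_zero]
        · exfalso
          apply hsame
          intro σ e
          have h1 := hCo m a' h0 σ e
          have h2 := (Finset.mem_filter.1 hm).2 σ e
          omega
    match b1, hb1, hb2 with
    | [], hb1, hb2 =>
      -- no letters
      have hwt : ∀ σ, st M σ true (N a) = st M σ false (N a) := by
        intro σ
        have h1 := lam_eq M (N a) σ
        rw [← hb2] at h1
        have h2 : lamL (wt M) [] σ = 0 := rfl
        rw [h2] at h1
        omega
      have hword : u ∈ (clL A L).C _ := by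
        refine Submodule.sum_mem _ fun m hm => Submodule.smul_mem _ _ ?_
        rw [hb']
        refine hAlg _ ?_ _ _ rfl
        rw [rel_iff]
        intro σ
        rw [st_eq, st_eq]
        have h1 := (Finset.mem_filter.1 hm).2 σ true
        have h2 := (Finset.mem_filter.1 hm).2 σ false
        have h3 := hwt σ
        omega
      have h5 := contr0_mem (clL G L) hx (SG_mono' (hAG _) hword)
      rw [hz', contr0_sum] at h5
      have h6 : ∑ a', contr0 (zw (z a') (lwf (BB M) (N a'))) u = z a := by
        rw [Finset.sum_eq_single a]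
        · rw [contr0_zw (lwf_gr _) hu, ← hb', htr, if_pos rfl, one_smul]
        · intro a' _ hne
          rw [contr0_zw (lwf_gr _) hu, ← hb', htr, if_neg hne, zero_smul]
        · intro h
          exact absurd (Finset.mem_univ _) h
      rw [h6] at h5
      have hmem : z a ∈ (clL A L).C Z := SG_mono' (hZ _ hb1) h5
      refine (clL A L).mul ((clL A L).map _ hmem) ((clL A L).map _ ?_)
      refine hAlg _ ?_ _ _ rfl
      rw [rel_iff]
      intro σ
      rw [st_eq, st_eq]
      exact hwt σ
    | l :: b2, hb1, hb2 =>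
      obtain ⟨C, hC1, hC2, _⟩ := isCan_prod' (BB M) b2 l
      have hwt : ∀ σ, st M σ true (N a) - st M σ false (N a) =
          st M σ true C - st M σ false C := by
        intro σ
        rw [← lam_eq, ← hb2, ← lam_eq, hC1, lamL_coe]
      have hword : zw u (lwf (BB M) C) ∈ (clL G L).C _ := by
        show zw (∑ m ∈ Finset.univ.filter (fun m => Co m a), g m a • b m) (lwf (BB M) C) ∈ _
        rw [zw_sum]
        refine Submodule.sum_mem _ fun m hm => ?_
        rw [zw_smul, hb', zw_lwf]
        refine Submodule.smul_mem _ _ (SG_mono' (hAG _) (hAlg _ ?_ _ _ rfl))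
        rw [rel_iff]
        intro σ
        rw [st_eq, st_eq, st, st, List.map_append, List.map_append, List.sum_append,
          List.sum_append]
        have e1 : ∀ e, ((pull (fst (Hel.prodOf X i Lst) (Hel.prodOf X l.1 (b2.map Sigma.fst)))
            (N m)).map fun y => pt M σ e y.1).sum = st M σ e (N m) := by
          intro e
          rw [pull, List.map_map]
          rfl
        have e2 : ∀ e, ((pull (snd (Hel.prodOf X i Lst) (Hel.prodOf X l.1 (b2.map Sigma.fst)))
            C).map fun y => pt M σ e y.1).sum = st M σ e C := by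
          intro e
          rw [pull, List.map_map]
          rfl
        rw [e1, e1, e2, e2]
        have h1 := (Finset.mem_filter.1 hm).2 σ true
        have h2 := (Finset.mem_filter.1 hm).2 σ false
        have h3 := hwt σ
        omega
      have h5 := contr_mem (clL G L) hx hword
      rw [hz', contr_sum] at h5
      have h6 : ∑ a', contr (zw (z a') (lwf (BB M) (N a'))) (zw u (lwf (BB M) C)) =
          zw (z a) (lwf (BB M) C) := by
        rw [Finset.sum_eq_single a]
        · rw [contr_zw (lwf_gr _) hu, ← hb', htr, if_pos rfl, one_smul]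
        · intro a' _ hne
          rw [contr_zw (lwf_gr _) hu, ← hb', htr, if_neg hne, zero_smul]
        · intro h
          exact absurd (Finset.mem_univ _) h
      rw [h6] at h5
      have hmem : zw (z a) (lwf (BB M) C) ∈ (clL A L).C _ := SG_mono' (hZ _ hb1) h5
      -- the dual word
      obtain ⟨κ', hκ', N', hN'⟩ := exists_WB (ops := ops) (X := X) (ι := ι) (b2.map Sigma.fst) l.1
      obtain ⟨b', hb''⟩ := hN' _ (BB M)
      obtain ⟨m, hm⟩ := exists_dualv b' hC2
      rw [hb''] at hm
      have hdual := fun σ b => st_dual M hpos hm σ b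
      have hword' : zw (lwf (BB M) (N' m)) (lwf (BB M) (N a)) ∈ (clL A L).C _ := by
        rw [zw_lwf]
        refine hAlg _ ?_ _ _ rfl
        rw [rel_iff]
        intro σ
        rw [st_eq, st_eq, st, st, List.map_append, List.map_append, List.sum_append,
          List.sum_append]
        have e1 : ∀ b, ((pull (fst (Hel.prodOf X l.1 (b2.map Sigma.fst)) (Hel.prodOf X i Lst))
            (N' m)).map fun y => pt M σ b y.1).sum = st M σ b (N' m) := by
          intro b
          rw [pull, List.map_map]
          rfl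
        have e2 : ∀ b, ((pull (snd (Hel.prodOf X l.1 (b2.map Sigma.fst)) (Hel.prodOf X i Lst))
            (N a)).map fun y => pt M σ b y.1).sum = st M σ b (N a) := by
          intro b
          rw [pull, List.map_map]
          rfl
        rw [e1, e1, e2, e2]
        have h1 := hdual σ true
        have h2 := hdual σ false
        have h3 := hwt σ
        omega
      have h7 := contr_mem (clL A L) hmem hword'
      rw [contr_zw (lwf_gr _) (lwf_gr _)] at h7
      have h8 := Submodule.smul_mem _ ((baseW T.W L).tr _ (lwf (BB M) C * lwf (BB M) (N' m)))⁻¹ h7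
      rwa [smul_smul, inv_mul_cancel₀ hm, one_smul] at h8

end

end Pool.Agent.H27.AH
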