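import Pool.Agent.H27.AH.Comb
import Pool.Agent.H27.AH.Few

/-!
# Embeddings of the field of algebraic numbers
-/

set_option autoImplicit false
set_option linter.unusedSectionVars false

universe u w

namespace Pool.Agent.H27.AH

open Pool.Agent.Q56.FD hiding Qb
open Pool.Agent.H27.Lin

/-- embeddings differ by automorphisms -/
lemma exists_aut (ε φ : Qb →+* ℂ) : ∃ τ : Qb ≃ₐ[ℚ] Qb, ∀ z, φ z = ε (τ z) := by
  let _ : Algebra Qb ℂ := ε.toAlgebra
  have _ : IsScalarTower ℚ Qb ℂ := IsScalarTower.of_algebraMap_eq fun x => by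
    rw [eq_ratCast, eq_ratCast, map_ratCast]
  let φ' : Qb →ₐ[ℚ] ℂ := φ.toRatAlgHom
  let τ' : Qb →ₐ[ℚ] Qb := φ'.restrictNormal Qb
  refine ⟨AlgEquiv.ofBijective τ' (AlgHom.normal_bijective ℚ Qb Qb τ'), fun z => ?_⟩
  exact (AlgHom.restrictNormal_commutes φ' Qb z).symm

section Rat

variable {K : Type*} [Field K] (hrat : ∀ r : K, ∃ q : ℚ, (q : K) = r) [Algebra K Qb] [Algebra K ℂ]

include hrat in
lemma comm_rat (φ : Qb →+* ℂ) (r : K) : φ (algebraMap K Qb r) = algebraMap K ℂ r := by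
  obtain ⟨q, rfl⟩ := hrat r
  rw [map_ratCast, map_ratCast, map_ratCast]

include hrat in
lemma comm_rat' (τ : Qb ≃ₐ[ℚ] Qb) (r : K) : τ (algebraMap K Qb r) = algebraMap K Qb r := by
  obtain ⟨q, rfl⟩ := hrat r
  rw [map_ratCast, map_ratCast]

/-- the embedding as a homomorphism of algebras -/
noncomputable def emb (φ : Qb →+* ℂ) : Qb →ₐ[K] ℂ := { φ with commutes' := comm_rat hrat φ }

/-- the automorphism as an automorphism of algebras -/
noncomputable def aut (τ : Qb ≃ₐ[ℚ] Qb) : Qb ≃ₐ[K] Qb :=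
  { (τ : Qb ≃+* Qb) with commutes' := comm_rat' hrat τ }

include hrat in
lemma mem_range_of_fix (x : Qb) (hx : ∀ g : Qb ≃ₐ[K] Qb, g x = x) :
    x ∈ Set.range (algebraMap K Qb) := by
  have h1 := (InfiniteGalois.mem_bot_iff_fixed (k := ℚ) (K := Qb) x).2 fun τ =>
    hx (aut hrat τ)
  obtain ⟨q, hq⟩ := IntermediateField.mem_bot.1 h1
  refine ⟨(q : K), ?_⟩
  rw [map_ratCast, ← hq, eq_ratCast]

end Rat

end Pool.Agent.H27.AH
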