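import Pool.Agent.H27.AH.Defs

/-!
# Pairwise independent fields: definitions
-/

set_option autoImplicit false

universe w

namespace Pool.Agent.H27.AH

variable {I : Type w}

/-- If `γ j` is different from `γ i`, then the field `ℚ(γ i)` and the field generated by the
conjugates of `γ j` have only totally real numbers in common. -/
def MeetPairwiseInReal (γ : I → Qb) : Prop :=
  ∀ i j, γ j ≠ γ i → ∀ x ∈ Subfield.closure {γ i},
    x ∈ Subfield.closure {z | IsConjRoot ℚ (γ j) z} → AreConj x x

/-- The number of the members `j` of `L` such that `γ j = γ i`. -/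
noncomputable def multiplicity (γ : I → Qb) (L : List I) (i : I) : ℕ :=
  open Classical in L.countP fun j => γ j = γ i

/-- The degree of the number `γ i`. -/
noncomputable def degree (γ : I → Qb) (i : I) : ℕ := (minpoly ℚ (γ i)).natDegree

/-- The list `L` of indices is short in the mean square: if `n` is the number of the members `j` of
`L` such that `γ j = γ i`, then the sum of the numbers `(2 c i n / deg (γ i)) ^ 2` over the different
numbers `γ i`, `i ∈ L`, and the sum of the numbers `2 (c i) ^ 2 / deg (γ i)` over all `i ∈ L` are at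
most `r ^ 2`, and the numbers `n` are at most `deg (γ i) / 2 * ⌊r / c i⌋`. (The first sum is written
as the sum of `(2 c i / deg (γ i)) ^ 2 * n` over all `i ∈ L`.) -/
def IsShortInSquare (γ : I → Qb) (c : I → ℕ) (r : ℕ) (L : List I) : Prop :=
  (L.map fun i => (2 * (c i : ℚ) / degree γ i) ^ 2 * multiplicity γ L i).sum ≤ (r : ℚ) ^ 2 ∧
  (L.map fun i => 2 * (c i : ℚ) ^ 2 / degree γ i).sum ≤ (r : ℚ) ^ 2 ∧
  ∀ i, 2 * multiplicity γ L i ≤ degree γ i * (r / c i)

end Pool.Agent.H27.AH
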