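import Pool.Agent.H27.AH.Comb
import Pool.Agent.H27.AH.PDefs

/-!
# Pairwise independent fields: automorphisms and second moments
-/

set_option autoImplicit false
set_option linter.unusedSectionVars false
set_option linter.unusedVariables false

universe u w

namespace Pool.Agent.H27.AH

open Pool.Agent.Q56.FD hiding Qb
open Pool.Agent.H27.K3 hiding Qb
open Pool.Agent.H27.Lin IntermediateField

/-! ### Automorphisms which flip one number -/

section Flip

/-- An automorphism which acts like `κ` on `z` and trivially on the conjugates of `a`. -/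
theorem exists_flip (κ : Qb ≃ₐ[ℚ] Qb) (z a : Qb)
    (h : ∀ x ∈ IntermediateField.adjoin ℚ {z},
      x ∈ IntermediateField.adjoin ℚ {y | IsConjRoot ℚ a y} → κ x = x) :
    ∃ σ : Qb ≃ₐ[ℚ] Qb, σ z = κ z ∧ ∀ y, IsConjRoot ℚ a y → σ y = y := by
  let T : Set Qb := {y | IsConjRoot ℚ z y}
  let L : IntermediateField ℚ Qb := IntermediateField.adjoin ℚ T
  let M : IntermediateField ℚ Qb := IntermediateField.adjoin ℚ {y | IsConjRoot ℚ a y}
  have hT : T = (minpoly ℚ z).rootSet Qb := by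
    ext y
    exact isConjRoot_iff_mem_minpoly_rootSet (Algebra.IsIntegral.isIntegral z)
  have hsp : (minpoly ℚ z).IsSplittingField ℚ L := by
    change (minpoly ℚ z).IsSplittingField ℚ (IntermediateField.adjoin ℚ T)
    rw [hT]
    exact IntermediateField.adjoin_rootSet_isSplittingField (IsAlgClosed.splits _)
  have hfd : FiniteDimensional ℚ L := Polynomial.IsSplittingField.finiteDimensional L
    (minpoly ℚ z)
  have hnorm : Normal ℚ L := Normal.of_isSplittingField (minpoly ℚ z)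
  have hgal : @IsGalois ℚ _ L _ L.algebra' := by
    have h1 : @Algebra.IsSeparable ℚ L _ _ L.algebra' :=
      @Algebra.IsAlgebraic.isSeparable_of_perfectField ℚ L _ _ L.algebra' inferInstance inferInstance
    exact @IsGalois.mk ℚ _ L _ L.algebra' h1 hnorm
  have hzT : z ∈ T := IsConjRoot.refl
  have hzL : z ∈ L := IntermediateField.subset_adjoin ℚ T hzT
  let res := AlgEquiv.restrictNormalHom (F := ℚ) (K₁ := Qb) L
  have hres : ∀ (σ : Qb ≃ₐ[ℚ] Qb) (x : L), ((res σ x : L) : Qb) = σ x :=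
    fun σ x => AlgEquiv.restrictNormal_commutes σ L x
  let H₀ : Subgroup (Qb ≃ₐ[ℚ] Qb) := M.fixingSubgroup
  have hH₀ : ∀ σ : Qb ≃ₐ[ℚ] Qb, (∀ y, IsConjRoot ℚ a y → σ y = y) → σ ∈ H₀ := by
    intro σ hσ
    rw [IntermediateField.mem_fixingSubgroup_iff]
    intro x hx
    have h1 : M ≤ IntermediateField.fixedField (Subgroup.zpowers σ) := by
      refine IntermediateField.adjoin_le_iff.2 fun y hy => ?_
      rw [SetLike.mem_coe, IntermediateField.mem_fixedField_iff]
      intro τ hτ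
      obtain ⟨n, rfl⟩ := Subgroup.mem_zpowers_iff.1 hτ
      have h2 : σ • y = y := hσ y hy
      exact (MulAction.mem_stabilizer_iff (G := Qb ≃ₐ[ℚ] Qb)).1
        (Subgroup.zpow_mem _ (MulAction.mem_stabilizer_iff.2 h2) n)
    exact (IntermediateField.mem_fixedField_iff _ _).1 (h1 hx) σ (Subgroup.mem_zpowers σ)
  have hH₀' : ∀ σ ∈ H₀, ∀ y, IsConjRoot ℚ a y → σ y = y := fun σ hσ y hy =>
    (IntermediateField.mem_fixingSubgroup_iff _ σ).1 hσ y
      (IntermediateField.subset_adjoin ℚ _ hy)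
  have hnor : H₀.Normal := by
    constructor
    intro σ hσ τ
    refine hH₀ _ fun y hy => ?_
    change τ (σ (τ.symm y)) = y
    rw [hH₀' σ hσ _ (hy.trans (isConjRoot_of_algEquiv y τ.symm)), AlgEquiv.apply_symm_apply]
  let H : Subgroup (L ≃ₐ[ℚ] L) := H₀.map res
  have hHn : H.Normal := hnor.map res (AlgEquiv.restrictNormalHom_surjective Qb)
  let N := (IntermediateField.adjoin ℚ {z}).comap L.val
  let S : Subgroup (L ≃ₐ[ℚ] L) := N.fixingSubgroup
  have hκ : res κ ∈ H ⊔ S := by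
    rw [← IntermediateField.fixingSubgroup_fixedField (H ⊔ S)]
    rw [IntermediateField.mem_fixingSubgroup_iff]
    intro x hx
    rw [IntermediateField.mem_fixedField_iff] at hx
    have hxM : (x : Qb) ∈ M := by
      rw [← InfiniteGalois.fixedField_fixingSubgroup M, IntermediateField.mem_fixedField_iff]
      intro σ hσ
      have h1 := hx (res σ) (Subgroup.mem_sup_left ⟨σ, hσ, rfl⟩)
      rw [← hres, h1]
    have hxz : (x : Qb) ∈ IntermediateField.adjoin ℚ {z} := by
      have h1 : x ∈ IntermediateField.fixedField N.fixingSubgroup := by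
        rw [IntermediateField.mem_fixedField_iff]
        exact fun σ hσ => hx σ (Subgroup.mem_sup_right hσ)
      rw [IsGalois.fixedField_fixingSubgroup N] at h1
      exact h1
    apply Subtype.ext
    rw [hres]
    exact h x hxz hxM
  obtain ⟨σ', ⟨σ, hσ, rfl⟩, s, hs, hmul⟩ := Subgroup.mem_sup_of_normal_left.1 hκ
  refine ⟨σ, ?_, hH₀' σ hσ⟩
  have h1 : s ⟨z, hzL⟩ = ⟨z, hzL⟩ := (IntermediateField.mem_fixingSubgroup_iff N s).1 hs ⟨z, hzL⟩
    (IntermediateField.mem_adjoin_simple_self ℚ z)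
  have h2 := hres κ ⟨z, hzL⟩
  rw [← hmul] at h2
  change ((res σ (s ⟨z, hzL⟩) : L) : Qb) = κ z at h2
  rw [h1, hres] at h2
  exact h2

variable {ε : Qb →+* ℂ} {κ : Qb ≃ₐ[ℚ] Qb} (hκ : ∀ z, ε (κ z) = (starRingEnd ℂ) (ε z))

include hκ in
/-- automorphisms which act as complex conjugation on one conjugate of `γ i` and trivially on the
conjugates of `γ j` -/
theorem exists_pair_flip {I : Type*} {γ : I → Qb} (h : MeetPairwiseInReal γ) {i j : I}
    (hij : γ j ≠ γ i) {z : Qb} (hz : IsConjRoot ℚ (γ i) z) :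
    ∃ σ : Qb ≃ₐ[ℚ] Qb, σ z = κ z ∧ ∀ y, IsConjRoot ℚ (γ j) y → σ y = y := by
  obtain ⟨ρ, rfl⟩ := isConjRoot_iff_exists_algEquiv.1 hz.symm
  refine exists_flip κ (ρ (γ i)) (γ j) fun x hx hx' => ?_
  have h1 : ρ.symm x ∈ Subfield.closure {γ i} := by
    apply mem_closure_of_mem_adjoin
    have h2 : (IntermediateField.adjoin ℚ {ρ (γ i)}).map (ρ.symm : Qb →ₐ[ℚ] Qb) =
        IntermediateField.adjoin ℚ {γ i} := by
      rw [IntermediateField.adjoin_map, Set.image_singleton]
      congr 2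
      exact ρ.symm_apply_apply (γ i)
    rw [← h2]
    exact ⟨x, hx, rfl⟩
  have h3 : ρ.symm x ∈ Subfield.closure {z | IsConjRoot ℚ (γ j) z} := by
    apply mem_closure_of_mem_adjoin
    have h2 : (IntermediateField.adjoin ℚ {y | IsConjRoot ℚ (γ j) y}).map
        (ρ.symm : Qb →ₐ[ℚ] Qb) ≤ IntermediateField.adjoin ℚ {y | IsConjRoot ℚ (γ j) y} := by
      rw [IntermediateField.adjoin_map]
      refine IntermediateField.adjoin.mono ℚ _ _ ?_
      rintro _ ⟨y, hy, rfl⟩
      exact IsConjRoot.trans hy (isConjRoot_of_algEquiv y ρ.symm)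
    exact h2 ⟨x, hx', rfl⟩
  have h4 := h i j hij _ h1 h3 (ε.comp (ρ : Qb →+* Qb))
  apply ε.injective
  rw [hκ]
  change ε (ρ (ρ.symm x)) = (starRingEnd ℂ) (ε (ρ (ρ.symm x))) at h4
  rw [AlgEquiv.apply_symm_apply] at h4
  exact h4.symm

end Flip

/-! ### Sums over embeddings of a normal field -/

section Normal

lemma exists_normal_field (S : Finset Qb) : ∃ E : IntermediateField ℚ Qb,
    FiniteDimensional ℚ E ∧ (∀ (σ : Qb ≃ₐ[ℚ] Qb), ∀ x ∈ E, σ x ∈ E) ∧ ∀ z ∈ S, z ∈ E := by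
  classical
  let T : Set Qb := {y | ∃ z ∈ S, IsConjRoot ℚ z y}
  have hfin : T.Finite := by
    refine ((S.biUnion fun z => cj z).finite_toSet).subset ?_
    rintro y ⟨z, hz, hy⟩
    exact Finset.mem_coe.2 (Finset.mem_biUnion.2 ⟨z, hz, mem_cj.2 hy⟩)
  have hfd : FiniteDimensional ℚ (IntermediateField.adjoin ℚ T) := by
    have := hfin.to_subtype
    exact IntermediateField.finiteDimensional_adjoin fun x _ => Algebra.IsIntegral.isIntegral x
  refine ⟨IntermediateField.adjoin ℚ T, hfd, fun σ x hx => ?_, fun z hz =>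
    IntermediateField.subset_adjoin ℚ T ⟨z, hz, IsConjRoot.refl⟩⟩
  have h2 : (IntermediateField.adjoin ℚ T).map (σ : Qb →ₐ[ℚ] Qb) ≤
      IntermediateField.adjoin ℚ T := by
    rw [IntermediateField.adjoin_map]
    refine IntermediateField.adjoin.mono ℚ _ _ ?_
    rintro _ ⟨y, ⟨z, hz, hy⟩, rfl⟩
    exact ⟨z, hz, hy.trans (isConjRoot_of_algEquiv y σ)⟩
  exact h2 ⟨x, hx, rfl⟩

variable (E : IntermediateField ℚ Qb) [FiniteDimensional ℚ E]
  (hN : ∀ (σ : Qb ≃ₐ[ℚ] Qb), ∀ x ∈ E, σ x ∈ E)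

/-- the restriction of an automorphism composed with an embedding -/
noncomputable def preComp (σ : Qb ≃ₐ[ℚ] Qb) (e : E →ₐ[ℚ] Qb) : E →ₐ[ℚ] Qb :=
  e.comp (((σ : Qb →ₐ[ℚ] Qb).comp E.val).codRestrict E.toSubalgebra fun x => hN σ x x.2)

lemma lft_preComp (σ : Qb ≃ₐ[ℚ] Qb) (e : E →ₐ[ℚ] Qb) {x : Qb} (hx : x ∈ E) :
    lft E (preComp E hN σ e) x = (σ.trans (lft E e)) x := by
  rw [lft_eq E _ hx]
  change _ = lft E e (σ x)
  rw [lft_eq E _ (hN σ x hx)]
  rfl

lemma preComp_bijective (σ : Qb ≃ₐ[ℚ] Qb) : Function.Bijective (preComp E hN σ) := by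
  rw [Function.bijective_iff_has_inverse]
  refine ⟨preComp E hN σ.symm, fun e => ?_, fun e => ?_⟩
  · ext x
    change e _ = e x
    congr 1
    apply Subtype.ext
    exact σ.apply_symm_apply x
  · ext x
    change e _ = e x
    congr 1
    apply Subtype.ext
    exact σ.symm_apply_apply x

include hN in
/-- The sum over the embeddings is invariant. -/
lemma sum_trans (F : (Qb ≃ₐ[ℚ] Qb) → ℚ)
    (hF : ∀ τ τ' : Qb ≃ₐ[ℚ] Qb, (∀ x ∈ E, τ x = τ' x) → F τ = F τ') (σ : Qb ≃ₐ[ℚ] Qb) :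
    ∑ e : E →ₐ[ℚ] Qb, F (σ.trans (lft E e)) = ∑ e : E →ₐ[ℚ] Qb, F (lft E e) := by
  refine Fintype.sum_bijective _ (preComp_bijective E hN σ) _ _ fun e => ?_
  exact (hF _ _ fun x hx => lft_preComp E hN σ e hx).symm

end Normal

end Pool.Agent.H27.AH
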